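import Pool.Agent.R820.FillA
import Pool.Agent.R820.FillFin
import Pool.Agent.R820.Ladder

namespace Pool.Agent.Results.MP_9641f2_gt.AllParts

open Pool.Agent.R820.Filling Pool.Agent.R820.FillFin Pool.Agent.R820 Set Topology

universe u v

/-- The alphabet: the power set of the real line, with the discrete topology. -/
def Al : Type := Set ℝ

instance : TopologicalSpace Al := ⊥

instance : DiscreteTopology Al := ⟨rfl⟩

instance : Nonempty Al := ⟨(∅ : Set ℝ)⟩

lemma exists_avoid (W : Finset ℝ → Set Al) (hW : ∀ E, (W E).Countable) : ∃ c, ∀ E, c ∉ W E := by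
  by_contra h
  push Not at h
  have h1 : (⋃ E, W E) = univ := eq_univ_of_forall fun c => mem_iUnion.2 (h c)
  have h2 : Cardinal.mk (⋃ E, W E) ≤ Cardinal.mk (Finset ℝ) * ⨆ E, Cardinal.mk (W E) :=
    Cardinal.mk_iUnion_le W
  have h3 : (⨆ E, Cardinal.mk (W E)) ≤ Cardinal.aleph0 :=
    ciSup_le' fun E => (hW E).le_aleph0
  have h4 : Cardinal.mk Al ≤ Cardinal.mk ℝ := by
    calc Cardinal.mk Al = Cardinal.mk (⋃ E, W E) := by rw [h1, Cardinal.mk_univ]
      _ ≤ Cardinal.mk (Finset ℝ) * ⨆ E, Cardinal.mk (W E) := h2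
      _ ≤ Cardinal.mk ℝ * Cardinal.aleph0 := by
          rw [Cardinal.mk_finset_of_infinite]
          exact mul_le_mul_right h3 _
      _ = Cardinal.mk ℝ := Cardinal.mul_aleph0_eq (Cardinal.aleph0_le_mk ℝ)
  have h5 : Cardinal.mk ℝ < Cardinal.mk Al := by
    have : Cardinal.mk Al = 2 ^ Cardinal.mk ℝ := Cardinal.mk_set
    rw [this]
    exact Cardinal.cantor _
  exact absurd h4 (not_le.2 h5)

lemma uncountable_real : Uncountable ℝ := inferInstance

/-- The value `c` can be inserted in a function outside of a countable set. -/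
lemma exists_value (J : Set ℝ) (hJ : J.Countable) (k : ℝ → Al) (c : Al) :
    ∃ k' : ℝ → Al, (∃ i, k' i = c) ∧ ∀ i ∈ J, k' i = k i := by
  classical
  obtain ⟨i, hi⟩ : ∃ i, i ∉ J := by
    by_contra h
    push Not at h
    have h1 : J = univ := eq_univ_of_forall h
    rw [h1, countable_univ_iff] at hJ
    exact not_countable_iff.2 uncountable_real hJ
  refine ⟨Function.update k i c, ⟨i, by simp⟩, fun j hj => ?_⟩
  rw [Function.update_of_ne]
  rintro rfl
  exact hi hj

/-- The answers to all parts: for countable filling, (a) yes, (b) no, (c) no; for finite filling,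
(a) no (and hence also (b) no, (c) no). -/
theorem result :
    -- (a), countable filling: the factors are paracompact
    (∀ (I : Type u) (X : I → Type v) [∀ i, TopologicalSpace (X i)] (D : Set (∀ i, X i)),
      T1Space (∀ i, X i) → FillsCountable D → T2Space D → ParacompactSpace D →
      ∀ i, T2Space (X i) ∧ ParacompactSpace (X i)) ∧
    -- (a), finite filling: a counterexample
    (∃ (I : Type) (X : I → Type) (_ : ∀ i, TopologicalSpace (X i)) (D : Set (∀ i, X i)),
      T1Space (∀ i, X i) ∧ FillsFinite D ∧ T2Space D ∧ ParacompactSpace D ∧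
      ∃ i, ¬ (T2Space (X i) ∧ ParacompactSpace (X i))) ∧
    -- (b), countable filling (hence also finite filling): a counterexample
    (∃ (I : Type) (X : I → Type) (_ : ∀ i, TopologicalSpace (X i)) (D : Set (∀ i, X i)),
      T1Space (∀ i, X i) ∧ FillsCountable D ∧ T1Space D ∧ NormalSpace D ∧
      ∃ i, ¬ NormalSpace (X i)) ∧
    -- (c), countable filling (hence also finite filling): a counterexample
    (∃ (I : Type) (X : I → Type) (_ : ∀ i, TopologicalSpace (X i)) (D : Set (∀ i, X i)),
      T1Space (∀ i, X i) ∧ FillsCountable D ∧ T1Space D ∧ CompletelyRegularSpace D ∧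
      ∃ i, ¬ CompletelyRegularSpace (X i)) := by
  classical
  have havoid : ∀ W : Finset ℝ → Finset Al, ∃ c, ∀ E, c ∉ W E := by
    intro W
    obtain ⟨c, hc⟩ := exists_avoid (fun E => (W E : Set Al)) fun E => (W E).countable_toSet
    exact ⟨c, fun E h => hc E (Finset.mem_coe.2 h)⟩
  refine ⟨?_, ?_, ?_, ?_⟩
  · intro I X _ D hT1 hD hT2 hpar i
    exact factors_paracompact hT1 hD hT2 hpar i
  · -- (a), finite
    let Y := Plank.Pt ℝ Al
    have hne : Nonempty Y := ⟨Plank.Pt.t ∅⟩
    have hneC : Nonempty (Code Y) := ⟨.leaf (Plank.Pt.t ∅)⟩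
    have hT2Y : T2Space Y := t2_of_base plank_base
    have hp : ParacompactSpace (DF Y) := paracompact_DF plank_base
    refine ⟨Option ℕ, Fac Y ℕ (Code Y), inferInstance, up (DF Y), t1_prod, ?_, ?_, ?_, none, ?_⟩
    · apply fills_finite
      intro J hJ x k
      obtain ⟨n, hn⟩ := hJ.bddAbove
      refine ⟨fun m => if m < n + 1 then k m else node x ((List.range (n + 1)).map k),
        ⟨n + 1, fun m hm => ?_⟩, fun i hi => ?_⟩
      · change (if m < n + 1 then k m else _) = _
        rw [if_neg (by omega)]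
        congr 1
        apply List.map_congr_left
        intro i hi
        rw [List.mem_range] at hi
        change k i = if i < n + 1 then k i else _
        rw [if_pos hi]
      · have : i ≤ n := hn hi
        exact if_pos (by omega)
    · exact (homeoUp (DF Y)).isEmbedding.t2Space
    · exact (homeoUp (DF Y)).isClosedEmbedding.paracompactSpace
    · rintro ⟨h1, h2⟩
      have h1' : T2Space Y := h1
      have h2' : ParacompactSpace Y := h2
      exact Plank.not_normal havoid inferInstance
  · -- (b)
    let Y := Plank.Pt ℝ Al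
    have hne : Nonempty Y := ⟨Plank.Pt.t ∅⟩
    let b : Al := (∅ : Set ℝ)
    have hn : NormalSpace (Plank.DD ℝ b) := Plank.normal_DD b
    have hT1 : T1Space (∀ o, Fac Y ℝ Al o) := t1_prod
    refine ⟨Option ℝ, Fac Y ℝ Al, inferInstance, up (Plank.DD ℝ b), hT1, ?_, inferInstance,
      (homeoUp (Plank.DD ℝ b)).isClosedEmbedding.normalSpace, none, ?_⟩
    · apply fills_countable
      intro J hJ x k
      refine ⟨fun i => if i ∈ J then k i else Plank.base b x, ?_, fun i hi => if_pos hi⟩
      refine hJ.mono ?_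
      intro i hi
      by_contra hiJ
      exact hi (if_neg hiJ)
    · exact Plank.not_normal havoid
  · -- (c)
    let Y := Ladder.Lad ℝ Al
    have hne : Nonempty Y := ⟨Ladder.Lad.a⟩
    have hc : CompletelyRegularSpace (Ladder.DC ℝ Al) := Ladder.cr_DC
    have hT1 : T1Space (∀ o, Fac Y ℝ Al o) := t1_prod
    refine ⟨Option ℝ, Fac Y ℝ Al, inferInstance, up (Ladder.DC ℝ Al), hT1, ?_, inferInstance,
      (homeoUp (Ladder.DC ℝ Al)).isEmbedding.isInducing.completelyRegularSpace, none, ?_⟩
    · apply fills_countable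
      intro J hJ x k
      by_cases hx : ∃ j c, x = Ladder.Lad.r j c
      · obtain ⟨j, c, rfl⟩ := hx
        obtain ⟨k', hk', hkk'⟩ := exists_value J hJ k c
        refine ⟨k', ?_, hkk'⟩
        intro j' c' h
        simp only [Ladder.Lad.r.injEq] at h
        rw [← h.2]
        exact hk'
      · exact ⟨k, fun j c h => absurd ⟨j, c, h⟩ hx, fun _ _ => rfl⟩
    · exact Ladder.not_completelyRegular exists_avoid

end Pool.Agent.Results.MP_9641f2_gt.AllParts
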